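import Pool.Agent.Helper2.SV.GoalsP
import Pool.Agent.Helper2.SV.GoalsF

/-!
Project SV (MP_e9db21_co), packet S7A: if `X+` is empty then the leaves of a claw with centre in `Y`
are in `Y`.
-/

set_option autoImplicit false

namespace Pool.Agent.Helper24.SV

open Pool.Agent.Helper2.SV

variable {V : Type} {G : SimpleGraph V} {Q : Set V}

/-- A neighbour in `Q` of one leaf is adjacent to another leaf. -/
lemma one (hF : ForkF G) {v a b c : V} (hvQ : v ∉ Q) (hv : ∀ q ∈ Q, ¬ G.Adj v q)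
    (va : G.Adj v a) (vb : G.Adj v b) (vc : G.Adj v c) (ab : a ≠ b) (ac : a ≠ c) (bc : b ≠ c)
    (nab : ¬ G.Adj a b) (nac : ¬ G.Adj a c) (nbc : ¬ G.Adj b c) :
    ∀ q ∈ Q, G.Adj a q → G.Adj b q ∨ G.Adj c q := by
  intro q hq haq
  have hqv : q ≠ v := fun h => hvQ (h ▸ hq)
  rcases hF v b c a q vb vc va haq bc ab.symm ac.symm hqv with h | h | h | h | h | h
  · exact absurd h nbc
  · exact absurd h.symm nab
  · exact absurd h.symm nac
  · exact absurd h (hv q hq)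
  · exact Or.inl h
  · exact Or.inr h

lemma key (hF : ForkF G) {v a b c : V} (hvQ : v ∉ Q) (hv : ∀ q ∈ Q, ¬ G.Adj v q)
    (dom : ∀ r ∈ Q, ∀ s ∈ Q, G.Adj r s → ∃ t ∈ Q, G.Adj r t ∧ t ≠ s ∧ ¬ G.Adj s t)
    (simp : ∀ s ∈ Q, ¬ Clq G {x | x ∈ Q ∧ G.Adj s x})
    (va : G.Adj v a) (vb : G.Adj v b) (vc : G.Adj v c) (ab : a ≠ b) (ac : a ≠ c) (bc : b ≠ c)
    (nab : ¬ G.Adj a b) (nac : ¬ G.Adj a c) (nbc : ¬ G.Adj b c)
    (ca : Clq G {q | q ∈ Q ∧ G.Adj a q}) (cb : Clq G {q | q ∈ Q ∧ G.Adj b q})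
    (cc : Clq G {q | q ∈ Q ∧ G.Adj c q}) :
    ∀ s ∈ Q, G.Adj a s → ¬ G.Adj b s := by
  have haQ : a ∉ Q := fun h => hv a h va
  have hbQ : b ∉ Q := fun h => hv b h vb
  have o1 := one hF hvQ hv va vb vc ab ac bc nab nac nbc
  have o2 := one hF hvQ hv vb va vc ab.symm bc ac (fun h => nab h.symm) nbc nac
  have two : ∀ s ∈ Q, G.Adj a s → G.Adj b s → ∀ r ∈ Q, G.Adj s r → G.Adj a r ∨ G.Adj b r := by
    intro s hs has hbs r hr hsr
    by_contra hcon
    push Not at hcon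
    obtain ⟨t, ht, hrt, hts, hst⟩ := dom r hr s hs hsr.symm
    have hat : ¬ G.Adj a t := fun h => hst (ca s ⟨hs, has⟩ t ⟨ht, h⟩ hts.symm)
    have hbt : ¬ G.Adj b t := fun h => hst (cb s ⟨hs, hbs⟩ t ⟨ht, h⟩ hts.symm)
    have har : a ≠ r := fun h => haQ (h ▸ hr)
    have hbr : b ≠ r := fun h => hbQ (h ▸ hr)
    rcases hF s a b r t has.symm hbs.symm hsr hrt ab har hbr hts with h | h | h | h | h | h
    · exact nab h
    · exact hcon.1 h
    · exact hcon.2 h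
    · exact hst h
    · exact hat h
    · exact hbt h
  have three : ∀ s ∈ Q, G.Adj a s → G.Adj b s → ∀ s' ∈ Q, G.Adj a s' → G.Adj b s' → s = s' := by
    intro s hs has hbs s' hs' has' hbs'
    by_contra hne
    have hadj : G.Adj s s' := ca s ⟨hs, has⟩ s' ⟨hs', has'⟩ hne
    obtain ⟨t, ht, hst, hts', hns⟩ := dom s hs s' hs' hadj
    rcases two s hs has hbs t ht hst with h | h
    · exact hns (ca s' ⟨hs', has'⟩ t ⟨ht, h⟩ hts'.symm)
    · exact hns (cb s' ⟨hs', hbs'⟩ t ⟨ht, h⟩ hts'.symm)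
  intro s hs has hbs
  have hsub : ∀ x ∈ Q, G.Adj s x → G.Adj c x := by
    intro x hx hsx
    have hne : s ≠ x := hsx.ne
    rcases two s hs has hbs x hx hsx with h | h
    · rcases o1 x hx h with h' | h'
      · exact absurd (three s hs has hbs x hx h h') hne
      · exact h'
    · rcases o2 x hx h with h' | h'
      · exact absurd (three s hs has hbs x hx h' h) hne
      · exact h'
  exact simp s hs fun x hx y hy hxy => cc x ⟨hx.1, hsub x hx.1 hx.2⟩ y ⟨hy.1, hsub y hy.1 hy.2⟩ hxy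

theorem goalS7A (hMI : G_MI) (hS2 : G_S2) : G_S7A := by
  intro V _ G Q hF hQ hXp v a b c hv va vb vc ab ac bc nab nac nbc
  obtain ⟨dom, simp, -⟩ := hMI.2 V G Q hQ
  have hcl : ∀ x, G.Adj v x → x ∉ Q ∧ Clq G {q | q ∈ Q ∧ G.Adj x q} := by
    intro x hvx
    have hxQ : x ∉ Q := fun h => hv.2 x h hvx
    refine ⟨hxQ, ?_⟩
    by_cases h1 : ∃ q ∈ Q, G.Adj x q
    · have h2 : ∃ q ∈ Q, ¬ G.Adj x q := by
        by_contra hcon
        push Not at hcon
        have : x ∈ Xp G Q := ⟨⟨hxQ, hcon⟩, v, hv, hvx.symm⟩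
        rw [hXp] at this
        exact this
      exact (hS2 V G Q hF hQ v hv x ⟨hxQ, h1, h2⟩ hvx).1
    · push Not at h1
      intro q hq
      exact absurd hq.2 (h1 q hq.1)
  obtain ⟨haQ, ca⟩ := hcl a va
  obtain ⟨hbQ, cb⟩ := hcl b vb
  obtain ⟨hcQ, cc⟩ := hcl c vc
  have nba : ¬ G.Adj b a := fun h => nab h.symm
  have nca : ¬ G.Adj c a := fun h => nac h.symm
  have ncb : ¬ G.Adj c b := fun h => nbc h.symm
  have kab := key hF hv.1 hv.2 dom simp va vb vc ab ac bc nab nac nbc ca cb cc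
  have kac := key hF hv.1 hv.2 dom simp va vc vb ac ab bc.symm nac nab ncb ca cc cb
  have kbc := key hF hv.1 hv.2 dom simp vb vc va bc ab.symm ac.symm nbc nba nca cb cc ca
  refine ⟨⟨haQ, fun q hq h => ?_⟩, ⟨hbQ, fun q hq h => ?_⟩, ⟨hcQ, fun q hq h => ?_⟩⟩
  · rcases one hF hv.1 hv.2 va vb vc ab ac bc nab nac nbc q hq h with h' | h'
    · exact kab q hq h h'
    · exact kac q hq h h'
  · rcases one hF hv.1 hv.2 vb va vc ab.symm bc ac nba nbc nac q hq h with h' | h'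
    · exact kab q hq h' h
    · exact kbc q hq h h'
  · rcases one hF hv.1 hv.2 vc va vb ac.symm bc.symm ab nca ncb nab q hq h with h' | h'
    · exact kac q hq h' h
    · exact kbc q hq h' h

end Pool.Agent.Helper24.SV
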